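import Pool.Agent.H18.TE.Targets
import Pool.Agent.H12.HIT.PRE

/-!
# Board bkh_modules: row PRV (the integral preimage is in the closure of the orbit)
-/

set_option autoImplicit false

open MvPolynomial Filter
open Pool.Agent.H12.ZD (pmap v O Res DenseOrbit NoInv emb)
open Pool.Agent.H18.HIT
open Pool.Agent.H8.ZA (HFam Const NA sz)
open Pool.Agent.H8.TD
open Pool.Agent.H18.TE
open scoped Topology

namespace Pool.Agent.H86.BKH

theorem iso_lt {N : ℕ} (p : Nat.Primes) (H : Tup N (O p)) (x x' : Fin N → O p) {ε : ℝ}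
    (hε : 0 < ε)
    (h : ∀ i, v p (((pmap (fl p H) x i : O p) : Qb) - ((pmap (fl p H) x' i : O p) : Qb)) < ε) :
    ∀ i, v p ((x i : Qb) - x' i) < ε := by
  intro i
  by_contra hi
  push Not at hi
  obtain ⟨i0, -, hmax⟩ := Finset.exists_max_image Finset.univ
    (fun i => v p ((x i : Qb) - x' i)) ⟨i, Finset.mem_univ _⟩
  obtain ⟨M, hM⟩ : ∃ M, M = v p ((x i0 : Qb) - x' i0) := ⟨_, rfl⟩
  have hMε : ε ≤ M := by
    rw [hM]
    exact hi.trans (hmax i (Finset.mem_univ _))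
  have hM0 : 0 < M := lt_of_lt_of_le hε hMε
  have hp1 := Pool.Agent.H12.ZD.v_self_lt p
  have hp0 : 0 < v p ((p : ℕ) : AlgebraicClosure ℚ) := by
    rw [Pool.Agent.H12.ZD.v_pos]
    exact_mod_cast p.2.ne_zero
  obtain ⟨η, hη⟩ : ∃ η, η = M / v p ((p : ℕ) : AlgebraicClosure ℚ) := ⟨_, rfl⟩
  have hη0 : 0 < η := by rw [hη]; positivity
  have hMη : M < η := by
    rw [hη, lt_div_iff₀ hp0]
    nlinarith
  have h1 := Pool.Agent.H12.ZD.close_eval p (H i0) x x' hη0 (fun j => by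
    refine lt_of_le_of_lt ?_ hMη
    rw [hM]
    exact hmax j (Finset.mem_univ _))
  have e1 : ∀ y : Fin N → O p, ((pmap (fl p H) y i0 : O p) : Qb) =
      (y i0 : Qb) + ((p : ℕ) : Qb) * ((eval y (H i0) : O p) : Qb) := by
    intro y
    unfold Pool.Agent.H12.ZD.pmap fl
    rw [map_add, map_mul, eval_X, eval_C]
    push_cast
    rfl
  have h2 := h i0
  rw [e1, e1] at h2
  have h3 : v p (((p : ℕ) : Qb) * (((eval x (H i0) : O p) : Qb) - ((eval x' (H i0) : O p) : Qb)))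
      < M := by
    rw [Pool.Agent.H12.ZD.v_mul]
    have h4 : v p ((p : ℕ) : AlgebraicClosure ℚ) * η = M := by
      rw [hη]
      field_simp
    rw [← h4]
    exact mul_lt_mul_of_pos_left h1 hp0
  have h4 := Pool.Agent.H12.ZD.v_sub_lt p (lt_of_lt_of_le h2 hMε) h3
  have e2 : (x i0 : Qb) + ((p : ℕ) : Qb) * ((eval x (H i0) : O p) : Qb) -
      ((x' i0 : Qb) + ((p : ℕ) : Qb) * ((eval x' (H i0) : O p) : Qb)) -
      ((p : ℕ) : Qb) * (((eval x (H i0) : O p) : Qb) - ((eval x' (H i0) : O p) : Qb)) =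
      (x i0 : Qb) - x' i0 := by ring
  rw [e2, ← hM] at h4
  exact lt_irrefl _ h4

theorem pf_PRV (hINA : T_INA) : T_PRV := by
  intro N p H z P hp hP c hc
  obtain ⟨a, ha⟩ : ∃ a : ℕ → Fin N → O p, a = fun j =>
    (pmap (fl p H))^[(p : ℕ) ^ j - 1] z := ⟨_, rfl⟩
  obtain ⟨b, hb⟩ : ∃ b : ℕ → Fin N → O p, b = fun j =>
    (pmap (fl p H))^[(p : ℕ) ^ j] z := ⟨_, rfl⟩
  have hab : ∀ j, pmap (fl p H) (a j) = b j := by
    intro j
    rw [ha, hb]
    simp only
    rw [← Function.iterate_succ_apply' (pmap (fl p H))]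
    have : 0 < (p : ℕ) ^ j := pow_pos p.2.pos j
    congr 1
    omega
  have hvan : ∀ j, eval (cO (a j)) c = 0 := by
    intro j
    have := hc ((p : ℕ) ^ j - 1)
    rw [flQ_iterate] at this
    rw [ha]
    exact this
  have hb0 : Tendsto (fun j : ℕ => v p ((((p : ℕ) ^ j : ℕ)) : Qb)) atTop (𝓝 0) := by
    have h1 : (fun j : ℕ => v p ((((p : ℕ) ^ j : ℕ)) : Qb)) =
        fun j : ℕ => (v p ((p : ℕ) : Qb)) ^ j := by
      funext j
      rw [Nat.cast_pow, Pool.Agent.H12.ZD.v_pow]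
    rw [h1]
    exact tendsto_pow_atTop_nhds_zero_of_lt_one (Pool.Agent.H12.ZD.v_nonneg p _)
      (Pool.Agent.H12.ZD.v_self_lt p)
  have haP : ∀ i, Tendsto (fun j => emb p (cO (a j) i)) atTop (𝓝 (emb p (cO P i))) := by
    intro i
    rw [tendsto_iff_norm_sub_tendsto_zero, Metric.tendsto_atTop]
    intro ε hε
    obtain ⟨J, hJ⟩ := (Metric.tendsto_atTop.1 hb0) ε hε
    refine ⟨J, fun j hj => ?_⟩
    have h1 := hJ j hj
    rw [Real.dist_eq, sub_zero, abs_of_nonneg (Pool.Agent.H12.ZD.v_nonneg p _)] at h1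
    have h2 := iso_lt p H (a j) P hε (fun i' => by
      rw [hab, hP, hb]
      refine lt_of_le_of_lt ?_ h1
      have h3 := hINA N p H (X i') z ((p : ℕ) ^ j) hp
      rw [eval_X, eval_X] at h3
      exact h3) i
    rw [Real.dist_eq, sub_zero, abs_of_nonneg (norm_nonneg _), ← map_sub]
    exact h2
  have h1 := Pool.Agent.H12.HIT.tendsto_eval p haP c
  simp only [hvan, map_zero] at h1
  have h2 := tendsto_nhds_unique h1 tendsto_const_nhds
  exact (map_eq_zero (emb p)).1 h2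

end Pool.Agent.H86.BKH
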